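import Pool.Agent.K1H34.UNI.Stm

set_option autoImplicit false
set_option linter.unusedSectionVars false

/-!
# Few copies of `K_{t,t}` in neighbourhoods, on average (`Pool.Agent.K1H34.UNI.S_MASS`)
-/

namespace Pool.Agent.K1H31.UNI

open Finset Classical
open Pool.Agent.K1H34 Pool.Agent.K1H34.UNI

variable {X : Type} [Fintype X]

lemma sum_fin_succ {r : ℕ} (F : (Fin (r + 1) → X) → ℝ) :
    ∑ a, F a = ∑ y : X, ∑ a' : Fin r → X, F (Fin.cons y a') := by
  rw [← (Fin.consEquiv (fun _ : Fin (r + 1) => X)).sum_comp, Fintype.sum_prod_type]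
  rfl

lemma prod_fin_cons {r : ℕ} (g : X → ℝ) (y : X) (a' : Fin r → X) :
    ∏ i, g ((Fin.cons y a' : Fin (r + 1) → X) i) = g y * ∏ i, g (a' i) := by
  rw [Fin.prod_univ_succ]
  simp

lemma tuple_pow (g : X → ℝ) (r : ℕ) : ∑ a : Fin r → X, ∏ i, g (a i) = (∑ u, g u) ^ r := by
  rw [Fintype.sum_pow]

/-- the weight of the tuples which are not injective -/
lemma noninj_weight (g : X → ℝ) (hg : ∀ u, 0 ≤ g u) {M : ℝ} (hM0 : 0 ≤ M) (hM : ∀ u, g u ≤ M) :
    ∀ r : ℕ, ∑ a : Fin (r + 1) → X, (if Function.Injective a then 0 else ∏ i, g (a i)) ≤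
      ((r : ℝ) + 1) ^ 2 / 2 * M * (∑ u, g u) ^ r := by
  have hS : 0 ≤ ∑ u, g u := Finset.sum_nonneg fun u _ => hg u
  intro r
  induction r with
  | zero =>
    have : ∀ a : Fin (0 + 1) → X, Function.Injective a := fun a i j _ => Fin.ext (by omega)
    simp only [this, if_true, Finset.sum_const_zero]
    positivity
  | succ r ih =>
    have key : ∀ (y : X) (a' : Fin (r + 1) → X),
        (if Function.Injective (Fin.cons y a' : Fin (r + 1 + 1) → X) then (0 : ℝ) else
          ∏ i, g ((Fin.cons y a' : Fin (r + 1 + 1) → X) i)) ≤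
        g y * (if Function.Injective a' then 0 else ∏ i, g (a' i)) +
          ∑ k : Fin (r + 1), if y = a' k then g y * ∏ i, g (a' i) else 0 := by
      intro y a'
      have hp : 0 ≤ ∏ i, g (a' i) := Finset.prod_nonneg fun i _ => hg _
      have hsum : 0 ≤ ∑ k : Fin (r + 1), if y = a' k then g y * ∏ i, g (a' i) else 0 :=
        Finset.sum_nonneg fun k _ => by split_ifs <;> [exact mul_nonneg (hg y) hp; exact le_rfl]
      by_cases h1 : Function.Injective (Fin.cons y a' : Fin (r + 1 + 1) → X)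
      · rw [if_pos h1]
        refine add_nonneg (mul_nonneg (hg y) ?_) hsum
        split_ifs <;> [exact le_rfl; exact hp]
      · rw [if_neg h1, prod_fin_cons]
        by_cases h2 : Function.Injective a'
        · rw [if_pos h2, mul_zero, zero_add]
          have h3 : ∃ k, y = a' k := by
            by_contra hcon
            apply h1
            rw [Fin.cons_injective_iff]
            refine ⟨?_, h2⟩
            rintro ⟨k, hk⟩
            exact hcon ⟨k, hk.symm⟩
          obtain ⟨k, hk⟩ := h3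
          have := Finset.single_le_sum (f := fun k : Fin (r + 1) =>
            if y = a' k then g y * ∏ i, g (a' i) else 0) (s := Finset.univ)
            (fun k _ => by
              split_ifs <;> [exact mul_nonneg (hg y) hp; exact le_rfl]) (Finset.mem_univ k)
          simp only [if_pos hk] at this
          exact this
        · rw [if_neg h2]
          linarith
    rw [sum_fin_succ]
    calc ∑ y : X, ∑ a' : Fin (r + 1) → X,
          (if Function.Injective (Fin.cons y a' : Fin (r + 1 + 1) → X) then (0 : ℝ) else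
          ∏ i, g ((Fin.cons y a' : Fin (r + 1 + 1) → X) i))
        ≤ ∑ y : X, ∑ a' : Fin (r + 1) → X,
          (g y * (if Function.Injective a' then 0 else ∏ i, g (a' i)) +
          ∑ k : Fin (r + 1), if y = a' k then g y * ∏ i, g (a' i) else 0) :=
          Finset.sum_le_sum fun y _ => Finset.sum_le_sum fun a' _ => key y a'
      _ = (∑ y, g y) * (∑ a' : Fin (r + 1) → X,
            if Function.Injective a' then 0 else ∏ i, g (a' i)) +
          ∑ a' : Fin (r + 1) → X, ∑ k : Fin (r + 1), g (a' k) * ∏ i, g (a' i) := by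
          simp only [Finset.sum_add_distrib]
          congr 1
          · rw [Finset.sum_mul]
            refine Finset.sum_congr rfl fun y _ => ?_
            rw [Finset.mul_sum]
          · rw [Finset.sum_comm]
            refine Finset.sum_congr rfl fun a' _ => ?_
            rw [Finset.sum_comm]
            refine Finset.sum_congr rfl fun k _ => ?_
            rw [Finset.sum_ite_eq' Finset.univ (a' k) (fun y => g y * ∏ i, g (a' i))]
            simp
      _ ≤ (∑ y, g y) * (((r : ℝ) + 1) ^ 2 / 2 * M * (∑ u, g u) ^ r) +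
          ∑ a' : Fin (r + 1) → X, ∑ k : Fin (r + 1), M * ∏ i, g (a' i) := by
          gcongr with a' _ k _
          · exact Finset.prod_nonneg fun i _ => hg _
          · exact hM _
      _ = (∑ y, g y) * (((r : ℝ) + 1) ^ 2 / 2 * M * (∑ u, g u) ^ r) +
          ((r : ℝ) + 1) * M * (∑ u, g u) ^ (r + 1) := by
          congr 1
          simp only [Finset.sum_const, Finset.card_univ, Fintype.card_fin, nsmul_eq_mul]
          rw [← Finset.mul_sum, ← Finset.mul_sum, tuple_pow]
          push_cast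
          ring
      _ ≤ _ := by
          have h5 : 0 ≤ M * (∑ u, g u) ^ (r + 1) := by positivity
          have e : (∑ y, g y) * (((r : ℝ) + 1) ^ 2 / 2 * M * (∑ u, g u) ^ r) +
            ((r : ℝ) + 1) * M * (∑ u, g u) ^ (r + 1) =
            (((r : ℝ) + 1) ^ 2 / 2 + (r + 1)) * (M * (∑ u, g u) ^ (r + 1)) := by ring
          rw [e, mul_assoc]
          refine mul_le_mul_of_nonneg_right ?_ h5
          push_cast
          nlinarith

lemma es_nonneg (Γ : SimpleGraph X) {x : X → ℝ} (hx : ∀ v, 0 ≤ x v) (v : X) : 0 ≤ es Γ x v :=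
  Finset.sum_nonneg fun u _ => hx u

/-- the weight restricted to the neighbours of `v` -/
noncomputable def gw (Γ : SimpleGraph X) (x : X → ℝ) (v u : X) : ℝ :=
  if u ∈ nb Γ v then x u else 0

lemma gw_nonneg (Γ : SimpleGraph X) {x : X → ℝ} (hx : ∀ v, 0 ≤ x v) (v u : X) :
    0 ≤ gw Γ x v u := by
  unfold gw; split_ifs <;> [exact hx u; exact le_rfl]

lemma sum_gw (Γ : SimpleGraph X) (x : X → ℝ) (v : X) : ∑ u, gw Γ x v u = es Γ x v := by
  unfold gw es
  rw [Finset.sum_ite_mem, Finset.univ_inter]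

lemma prod_gw (Γ : SimpleGraph X) (x : X → ℝ) (v : X) {r : ℕ} (a : Fin r → X)
    (ha : ∀ i, a i ∈ nb Γ v) : ∏ i, gw Γ x v (a i) = ∏ i, x (a i) := by
  refine Finset.prod_congr rfl fun i _ => ?_
  unfold gw; rw [if_pos (ha i)]

lemma mem_nb {Γ : SimpleGraph X} {v u : X} : u ∈ nb Γ v ↔ Γ.Adj v u := by
  simp [nb]

/-- the weight of all copies of `K_{t,t}` -/
lemma adj_sum (Γ : SimpleGraph X) {x : X → ℝ} (hx : ∀ v, 0 ≤ x v) {E : ℝ} (hE : 0 ≤ E)
    (hes : ∀ v, 0 < x v → es Γ x v ≤ E) (r : ℕ) :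
    ∑ a : Fin (r + 1) → X, ∑ b : Fin (r + 1) → X,
      (if ∀ i j, Γ.Adj (a i) (b j) then (∏ i, x (a i)) * ∏ j, x (b j) else 0) ≤
      E ^ (2 * (r + 1) - 1) * ∑ v, x v := by
  rw [Finset.sum_comm, sum_fin_succ]
  have h1 : ∀ (z : X) (b' : Fin r → X) (a : Fin (r + 1) → X),
      (if ∀ i j, Γ.Adj (a i) ((Fin.cons z b' : Fin (r + 1) → X) j) then
        (∏ i, x (a i)) * ∏ j, x ((Fin.cons z b' : Fin (r + 1) → X) j) else 0) ≤
      x z * (∏ i, gw Γ x z (a i)) * ∏ j, gw Γ x (a 0) (b' j) := by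
    intro z b' a
    have hr : 0 ≤ x z * (∏ i, gw Γ x z (a i)) * ∏ j, gw Γ x (a 0) (b' j) :=
      mul_nonneg (mul_nonneg (hx z) (Finset.prod_nonneg fun i _ => gw_nonneg Γ hx _ _))
        (Finset.prod_nonneg fun i _ => gw_nonneg Γ hx _ _)
    split_ifs with hadj
    · have ha : ∀ i, a i ∈ nb Γ z := fun i => mem_nb.2 (by
        have := hadj i 0
        rw [Fin.cons_zero] at this
        exact this.symm)
      have hb : ∀ j, b' j ∈ nb Γ (a 0) := fun j => mem_nb.2 (by
        have := hadj 0 j.succ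
        rw [Fin.cons_succ] at this
        exact this)
      rw [prod_gw Γ x z a ha, prod_gw Γ x (a 0) b' hb, prod_fin_cons]
      apply le_of_eq
      ring
    · exact hr
  have h2 : ∀ (z : X) (a : Fin (r + 1) → X),
      x z * (∏ i, gw Γ x z (a i)) * (es Γ x (a 0)) ^ r ≤ x z * (∏ i, gw Γ x z (a i)) * E ^ r := by
    intro z a
    have hp : 0 ≤ ∏ i, gw Γ x z (a i) := Finset.prod_nonneg fun i _ => gw_nonneg Γ hx _ _
    by_cases h0 : 0 < x (a 0)
    · refine mul_le_mul_of_nonneg_left ?_ (mul_nonneg (hx z) hp)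
      exact pow_le_pow_left₀ (es_nonneg Γ hx _) (hes _ h0) r
    · have h00 : x (a 0) = 0 := le_antisymm (not_lt.1 h0) (hx _)
      have : ∏ i, gw Γ x z (a i) = 0 := by
        refine Finset.prod_eq_zero (Finset.mem_univ 0) ?_
        unfold gw
        split_ifs <;> [exact h00; rfl]
      rw [this, mul_zero, zero_mul, zero_mul]
  calc ∑ z : X, ∑ b' : Fin r → X, ∑ a : Fin (r + 1) → X,
      (if ∀ i j, Γ.Adj (a i) ((Fin.cons z b' : Fin (r + 1) → X) j) then
        (∏ i, x (a i)) * ∏ j, x ((Fin.cons z b' : Fin (r + 1) → X) j) else 0)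
      ≤ ∑ z : X, ∑ b' : Fin r → X, ∑ a : Fin (r + 1) → X,
        x z * (∏ i, gw Γ x z (a i)) * ∏ j, gw Γ x (a 0) (b' j) :=
        Finset.sum_le_sum fun z _ => Finset.sum_le_sum fun b' _ => Finset.sum_le_sum fun a _ =>
          h1 z b' a
    _ = ∑ z : X, ∑ a : Fin (r + 1) → X, x z * (∏ i, gw Γ x z (a i)) * (es Γ x (a 0)) ^ r := by
        refine Finset.sum_congr rfl fun z _ => ?_
        rw [Finset.sum_comm]
        refine Finset.sum_congr rfl fun a _ => ?_
        rw [← Finset.mul_sum, tuple_pow, sum_gw]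
    _ ≤ ∑ z : X, ∑ a : Fin (r + 1) → X, x z * (∏ i, gw Γ x z (a i)) * E ^ r :=
        Finset.sum_le_sum fun z _ => Finset.sum_le_sum fun a _ => h2 z a
    _ = ∑ z : X, x z * (es Γ x z) ^ (r + 1) * E ^ r := by
        refine Finset.sum_congr rfl fun z _ => ?_
        rw [← Finset.sum_mul, ← Finset.mul_sum, tuple_pow, sum_gw]
    _ ≤ ∑ z : X, x z * E ^ (r + 1) * E ^ r := by
        refine Finset.sum_le_sum fun z _ => ?_
        refine mul_le_mul_of_nonneg_right ?_ (pow_nonneg hE _)
        by_cases h0 : 0 < x z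
        · exact mul_le_mul_of_nonneg_left (pow_le_pow_left₀ (es_nonneg Γ hx _) (hes _ h0) _) (hx z)
        · have h00 : x z = 0 := le_antisymm (not_lt.1 h0) (hx _)
          rw [h00, zero_mul, zero_mul]
    _ = E ^ (2 * (r + 1) - 1) * ∑ v, x v := by
        have : 2 * (r + 1) - 1 = (r + 1) + r := by omega
        rw [this, Finset.mul_sum]
        refine Finset.sum_congr rfl fun z _ => ?_
        rw [pow_add]
        ring

theorem t_MASS : S_MASS := by
  intro X _ Γ t s ht hR x M E hM hE hx hxM hes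
  obtain ⟨r, rfl⟩ : ∃ r, t = r + 1 := ⟨t - 1, by omega⟩
  -- pointwise bound
  set KI : X → ℝ := fun v => ∑ a : Fin (r + 1) → X, ∑ b : Fin (r + 1) → X,
    if ((∀ i, a i ∈ nb Γ v) ∧ (∀ j, b j ∈ nb Γ v) ∧ (∀ i j, Γ.Adj (a i) (b j))) ∧
      Function.Injective a ∧ Function.Injective b then
      (∏ i, x (a i)) * ∏ j, x (b j) else 0 with hKI
  have hxsum : 0 ≤ ∑ v, x v := Finset.sum_nonneg fun v _ => hx v
  have h1 : ∀ v, KK Γ (r + 1) x v ≤ KI v + ((r : ℝ) + 1) ^ 2 * M * (es Γ x v) ^ (2 * r + 1) := by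
    intro v
    have hg0 : ∀ u, 0 ≤ gw Γ x v u := gw_nonneg Γ hx v
    have hgM : ∀ u, gw Γ x v u ≤ M := fun u => by
      unfold gw; split_ifs <;> [exact hxM u; exact hM]
    have hN := noninj_weight (gw Γ x v) hg0 hM hgM r
    rw [sum_gw] at hN
    set N : ℝ := ∑ a : Fin (r + 1) → X,
      (if Function.Injective a then 0 else ∏ i, gw Γ x v (a i)) with hNdef
    have hterm : ∀ a b : Fin (r + 1) → X,
        (if (∀ i, a i ∈ nb Γ v) ∧ (∀ j, b j ∈ nb Γ v) ∧ (∀ i j, Γ.Adj (a i) (b j)) then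
          (∏ i, x (a i)) * ∏ j, x (b j) else 0) ≤
        (if ((∀ i, a i ∈ nb Γ v) ∧ (∀ j, b j ∈ nb Γ v) ∧ (∀ i j, Γ.Adj (a i) (b j))) ∧
          Function.Injective a ∧ Function.Injective b then
          (∏ i, x (a i)) * ∏ j, x (b j) else 0) +
        (if Function.Injective a then 0 else ∏ i, gw Γ x v (a i)) * (∏ j, gw Γ x v (b j)) +
        (∏ i, gw Γ x v (a i)) * (if Function.Injective b then 0 else ∏ j, gw Γ x v (b j)) := by
      intro a b
      have pa : 0 ≤ ∏ i, gw Γ x v (a i) := Finset.prod_nonneg fun i _ => hg0 _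
      have pb : 0 ≤ ∏ i, gw Γ x v (b i) := Finset.prod_nonneg fun i _ => hg0 _
      have xa : 0 ≤ ∏ i, x (a i) := Finset.prod_nonneg fun i _ => hx _
      have xb : 0 ≤ ∏ i, x (b i) := Finset.prod_nonneg fun i _ => hx _
      have t1 : 0 ≤ (if ((∀ i, a i ∈ nb Γ v) ∧ (∀ j, b j ∈ nb Γ v) ∧
          (∀ i j, Γ.Adj (a i) (b j))) ∧ Function.Injective a ∧ Function.Injective b then
          (∏ i, x (a i)) * ∏ j, x (b j) else 0) := by
        split_ifs <;> positivity
      have t2 : 0 ≤ (if Function.Injective a then 0 else ∏ i, gw Γ x v (a i)) *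
          (∏ j, gw Γ x v (b j)) := by
        split_ifs <;> positivity
      have t3 : 0 ≤ (∏ i, gw Γ x v (a i)) *
          (if Function.Injective b then 0 else ∏ j, gw Γ x v (b j)) := by
        split_ifs <;> positivity
      by_cases hc : (∀ i, a i ∈ nb Γ v) ∧ (∀ j, b j ∈ nb Γ v) ∧ (∀ i j, Γ.Adj (a i) (b j))
      · rw [if_pos hc]
        by_cases ha : Function.Injective a
        · by_cases hb : Function.Injective b
          · rw [if_pos ⟨hc, ha, hb⟩]
            linarith
          · have e : (∏ i, gw Γ x v (a i)) *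
              (if Function.Injective b then 0 else ∏ j, gw Γ x v (b j)) =
              (∏ i, x (a i)) * ∏ j, x (b j) := by
              rw [if_neg hb, prod_gw Γ x v a hc.1, prod_gw Γ x v b hc.2.1]
            rw [e]
            linarith
        · have e : (if Function.Injective a then 0 else ∏ i, gw Γ x v (a i)) *
              (∏ j, gw Γ x v (b j)) = (∏ i, x (a i)) * ∏ j, x (b j) := by
              rw [if_neg ha, prod_gw Γ x v a hc.1, prod_gw Γ x v b hc.2.1]
          rw [e]
          linarith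
      · rw [if_neg hc]
        linarith
    have hsum : KK Γ (r + 1) x v ≤ KI v + N * (es Γ x v) ^ (r + 1) + (es Γ x v) ^ (r + 1) * N := by
      unfold KK
      refine (Finset.sum_le_sum fun a _ => Finset.sum_le_sum fun b _ => hterm a b).trans ?_
      simp only [Finset.sum_add_distrib]
      apply le_of_eq
      congr 1
      · congr 1
        simp only [← Finset.mul_sum]
        rw [← Finset.sum_mul, tuple_pow, sum_gw]
      · simp only [← Finset.mul_sum]
        rw [← Finset.sum_mul, tuple_pow, sum_gw]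
    have he0 := es_nonneg Γ hx v
    have h5 : N * (es Γ x v) ^ (r + 1) ≤
        ((r : ℝ) + 1) ^ 2 / 2 * M * (es Γ x v) ^ r * (es Γ x v) ^ (r + 1) :=
      mul_le_mul_of_nonneg_right hN (pow_nonneg he0 _)
    have e1 : (es Γ x v) ^ (2 * r + 1) = (es Γ x v) ^ r * (es Γ x v) ^ (r + 1) := by
      rw [← pow_add]; congr 1; ring
    rw [e1]
    linarith
  -- the nondegenerate part
  have h2 : ∑ v, x v * KI v ≤ s * M * (E ^ (2 * (r + 1) - 1) * ∑ v, x v) := by
    have hadj := adj_sum Γ hx hE hes r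
    have e1 : ∑ v, x v * KI v = ∑ a : Fin (r + 1) → X, ∑ b : Fin (r + 1) → X, ∑ v, x v *
        (if ((∀ i, a i ∈ nb Γ v) ∧ (∀ j, b j ∈ nb Γ v) ∧ (∀ i j, Γ.Adj (a i) (b j))) ∧
      Function.Injective a ∧ Function.Injective b then
      (∏ i, x (a i)) * ∏ j, x (b j) else 0) := by
      simp only [hKI, Finset.mul_sum]
      rw [Finset.sum_comm]
      refine Finset.sum_congr rfl fun a _ => ?_
      rw [Finset.sum_comm]
    rw [e1]
    have h3 : ∀ a b : Fin (r + 1) → X, ∑ v, x v *
        (if ((∀ i, a i ∈ nb Γ v) ∧ (∀ j, b j ∈ nb Γ v) ∧ (∀ i j, Γ.Adj (a i) (b j))) ∧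
      Function.Injective a ∧ Function.Injective b then
      (∏ i, x (a i)) * ∏ j, x (b j) else 0) ≤
        s * M * (if ∀ i j, Γ.Adj (a i) (b j) then (∏ i, x (a i)) * ∏ j, x (b j) else 0) := by
      intro a b
      have xa : 0 ≤ ∏ i, x (a i) := Finset.prod_nonneg fun i _ => hx _
      have xb : 0 ≤ ∏ i, x (b i) := Finset.prod_nonneg fun i _ => hx _
      by_cases hc : (∀ i j, Γ.Adj (a i) (b j)) ∧ Function.Injective a ∧ Function.Injective b
      · rw [if_pos hc.1]
        have hcard := hR a b hc.2.1 hc.2.2 hc.1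
        have e2 : ∀ v, x v * (if ((∀ i, a i ∈ nb Γ v) ∧ (∀ j, b j ∈ nb Γ v) ∧
            (∀ i j, Γ.Adj (a i) (b j))) ∧
            Function.Injective a ∧ Function.Injective b then
            (∏ i, x (a i)) * ∏ j, x (b j) else 0) ≤
            if ((∀ i, Γ.Adj v (a i)) ∧ ∀ i, Γ.Adj v (b i)) then
              M * ((∏ i, x (a i)) * ∏ j, x (b j)) else 0 := by
          intro v
          by_cases hv : (∀ i, Γ.Adj v (a i)) ∧ ∀ i, Γ.Adj v (b i)
          · rw [if_pos hv]
            split_ifs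
            · exact mul_le_mul_of_nonneg_right (hxM v) (by positivity)
            · rw [mul_zero]; positivity
          · rw [if_neg hv, if_neg, mul_zero]
            rintro ⟨⟨h1, h2, _⟩, _⟩
            exact hv ⟨fun i => mem_nb.1 (h1 i), fun i => mem_nb.1 (h2 i)⟩
        refine (Finset.sum_le_sum fun v _ => e2 v).trans ?_
        rw [← Finset.sum_filter, Finset.sum_const, nsmul_eq_mul]
        have : (((univ.filter (fun v => (∀ i, Γ.Adj v (a i)) ∧ ∀ i, Γ.Adj v (b i))).card : ℕ) : ℝ) ≤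
            (s : ℝ) := by exact_mod_cast hcard
        calc _ ≤ (s : ℝ) * (M * ((∏ i, x (a i)) * ∏ j, x (b j))) :=
              mul_le_mul_of_nonneg_right this (by positivity)
          _ = _ := by ring
      · have e2 : ∀ v, (if ((∀ i, a i ∈ nb Γ v) ∧ (∀ j, b j ∈ nb Γ v) ∧
            (∀ i j, Γ.Adj (a i) (b j))) ∧
            Function.Injective a ∧ Function.Injective b then
            (∏ i, x (a i)) * ∏ j, x (b j) else 0) = 0 := by
          intro v
          rw [if_neg]
          rintro ⟨⟨_, _, h3⟩, h4⟩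
          exact hc ⟨h3, h4⟩
        simp only [e2, mul_zero, Finset.sum_const_zero]
        have : (0 : ℝ) ≤ s := Nat.cast_nonneg s
        split_ifs <;> positivity
    refine (Finset.sum_le_sum fun a _ => Finset.sum_le_sum fun b _ => h3 a b).trans ?_
    simp only [← Finset.mul_sum]
    exact mul_le_mul_of_nonneg_left hadj (mul_nonneg (Nat.cast_nonneg s) hM)
  -- conclusion
  have h3 : ∀ v, x v * KK Γ (r + 1) x v ≤
      x v * KI v + ((r : ℝ) + 1) ^ 2 * M * E ^ (2 * r + 1) * x v := by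
    intro v
    by_cases h0 : 0 < x v
    · have h4 : (es Γ x v) ^ (2 * r + 1) ≤ E ^ (2 * r + 1) :=
        pow_le_pow_left₀ (es_nonneg Γ hx _) (hes v h0) _
      have h5 : ((r : ℝ) + 1) ^ 2 * M * (es Γ x v) ^ (2 * r + 1) ≤
          ((r : ℝ) + 1) ^ 2 * M * E ^ (2 * r + 1) := mul_le_mul_of_nonneg_left h4 (by positivity)
      have h6 := mul_le_mul_of_nonneg_left ((h1 v).trans (by linarith [h5] :
        KI v + ((r : ℝ) + 1) ^ 2 * M * (es Γ x v) ^ (2 * r + 1) ≤
        KI v + ((r : ℝ) + 1) ^ 2 * M * E ^ (2 * r + 1))) (hx v)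
      linarith
    · have h00 : x v = 0 := le_antisymm (not_lt.1 h0) (hx _)
      rw [h00]
      simp
  have h4 := Finset.sum_le_sum fun v (_ : v ∈ (Finset.univ : Finset X)) => h3 v
  rw [Finset.sum_add_distrib, ← Finset.mul_sum] at h4
  have e : 2 * (r + 1) - 1 = 2 * r + 1 := by omega
  rw [e] at h2 ⊢
  push_cast
  calc _ ≤ _ := h4
    _ ≤ s * M * (E ^ (2 * r + 1) * ∑ v, x v) +
        ((r : ℝ) + 1) ^ 2 * M * E ^ (2 * r + 1) * ∑ v, x v := by linarith
    _ = _ := by ring

end Pool.Agent.K1H31.UNI
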